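import Pool.Agent.W912.EC.Defs
import Pool.Agent.H622R2.Exp.A6

set_option autoImplicit false

/-!
# The hard language is in exponential time (after `Pool/Agent/H622R2/Exp/A6.lean`)
-/

namespace Pool.Agent.W639.EC

open Pool.Agent.NPC Pool.Agent.H620R2.Gauge Pool.Agent.H622R2.Exp Pool.Agent.W912.EC

/-- the next action -/
noncomputable def act (b : ℕ) (p : List Bool × List Bool) : List Bool :=
  if p.2.length < 2 ^ (p.1.length / b) then [false] else
    if p.2.length = 2 ^ (p.1.length / b) then
      false :: (p.2.map (fun _ => true) ++ false :: p.1)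
    else [true, p.2.reverse.head?.getD false]

theorem poly_act (b : ℕ) : NPC.Poly (fun y => act b (unpair y)) := by
  have hx : NPC.Poly (fun y => (unpair y).1) := NPC.Poly.fst poly_unpair
  have ha : NPC.Poly (fun y => (unpair y).2) := NPC.Poly.snd poly_unpair
  have hR : NPC.Poly (fun y : List Bool => 2 ^ ((unpair y).1.length / b)) :=
    A6.poly_two_pow (UPoly.of_le (NPC.Poly.div (NPC.Poly.length hx) (NPC.Poly.const b))
      (UPoly.length hx) (fun a => Nat.div_le_self _ _))
  have hm : NPC.Poly (fun y : List Bool => (unpair y).2.map (fun _ => true)) :=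
    NPC.Poly.map (F := fun _ _ => true) ha (NPC.Poly.const true)
  unfold act
  refine NPC.Poly.ite (NPC.Poly.decide_lt (NPC.Poly.length ha) hR) (NPC.Poly.const _)
    (NPC.Poly.ite (NPC.Poly.decide_eq (NPC.Poly.length ha) hR) ?_ ?_)
  · exact NPC.Poly.cons (NPC.Poly.const _) (NPC.Poly.append hm
      (NPC.Poly.cons (NPC.Poly.const _) hx))
  · exact NPC.Poly.cons (NPC.Poly.const _) (NPC.Poly.cons
      (NPC.Poly.head?_getD (NPC.Poly.reverse ha) false) (NPC.Poly.const _))

/-- the algorithm -/
noncomputable def alg (b : ℕ) : Alg where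
  D := fun y => act b (unpair y)
  poly := Pool.Agent.H622R2.polyTime_of_poly_list (poly_act b)
  p := 0

theorem alg_D (b : ℕ) (x a : List Bool) : (alg b).D (pairBits x a) = act b (x, a) := by
  change act b (unpair (pairBits x a)) = _
  rw [unpair_pairBits]

theorem run_alg (b : ℕ) (A : Oracle) (x : List Bool) : ∀ (n : ℕ)
    (a : List Bool), n + a.length = 2 ^ (x.length / b) →
    (alg b).run A x (n + 2) a = some [A (tst b x)] := by
  intro n
  induction n with
  | zero =>
    intro a ha
    rw [Nat.zero_add] at ha
    have h1 : (alg b).D (pairBits x a) = false :: tst b x := by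
      rw [alg_D]
      unfold act
      rw [if_neg (by simp only; omega), if_pos (by simp only; omega)]
      unfold tst
      simp only
      rw [List.map_const', ha]
    have h2 : (alg b).D (pairBits x (a ++ [A (tst b x)])) =
        true :: [A (tst b x)] := by
      rw [alg_D]
      unfold act
      rw [if_neg (by simp only [List.length_append, List.length_singleton]; omega),
        if_neg (by simp only [List.length_append, List.length_singleton]; omega)]
      simp
    simp only [Alg.run, h1, h2]
  | succ n ih =>
    intro a ha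
    have h1 : (alg b).D (pairBits x a) = false :: [] := by
      rw [alg_D]
      unfold act
      rw [if_pos (by simp only; omega)]
    have h2 := ih (a ++ [A []]) (by rw [List.length_append, List.length_singleton]; omega)
    have h3 : n + 1 + 2 = (n + 2) + 1 := by ring
    rw [h3, Alg.run]
    simp only [h1]
    exact h2

theorem main : S_TIME := by
  intro b A _
  refine ⟨alg b, Polynomial.C 2 * (Polynomial.X + 1), ⟨2, rfl⟩, fun x => ⟨[A (tst b x)], ?_, ?_⟩⟩
  · refine Alg.run_mono _ A x _ (2 ^ (x.length / b) + 2) _ [] ?_ (run_alg b A x _ [] (by simp))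
    have h1 : (Polynomial.C 2 * (Polynomial.X + 1) : Polynomial ℕ).eval x.length =
        2 * (x.length + 1) := by simp
    rw [h1]
    have h2 : 2 ^ (x.length / b) ≤ 2 ^ x.length :=
      Nat.pow_le_pow_right (by norm_num) (Nat.div_le_self _ _)
    have h3 : 1 ≤ 2 ^ x.length := Nat.one_le_two_pow
    have h4 : 2 ^ (2 * (x.length + 1)) = 4 * (2 ^ x.length * 2 ^ x.length) := by
      rw [Nat.mul_add, pow_add, two_mul, pow_add]
      ring
    rw [h4]
    nlinarith
  · simp [LL]

end Pool.Agent.W639.EC
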